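import Pool.Agent.Lib.MP_ae1cd8_an.Generation

/-! MP_ae1cd8_an, Q1: the answer is negative. -/

open MeasureTheory Pool.Agent.Lib.MP_ae1cd8_an

/-- There are data `(ℕ, ν, p, ω)` satisfying all the assumptions (detailed balance, `0 < σ < ∞`,
condition (A), `ω⁻¹ ∈ L^1(μ)`) for which `U₁` generates a `C₀`-semigroup on `L^1(μ)`, but does
not generate a uniformly bounded one. -/
theorem Pool.Agent.Results.MP_ae1cd8_an.NotUniformlyBounded.result :
    ∃ D : JumpData ℕ, D.SigmaFinitePositive ∧ D.CondA ∧ Integrable (fun x => (D.ω x)⁻¹) D.μ ∧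
      D.GeneratesC0Semigroup ∧ ¬ D.GeneratesUniformlyBoundedSemigroup := by
  refine ⟨ex, ex_sigmaFinitePositive, ex_condA, ex_integrable_inv, ex_generates, ?_⟩
  rintro ⟨T, hT, hG, hB⟩
  exact ex_not_bounded T hT hG hB
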